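import Pool.Agent.Helper976_Stamp.Part6

set_option autoImplicit false

/-!
# Stamp foldings: the growth rate is at most `π / (4 - π) < 3.66`

The number `F n` of folded states of a strip with `n` creases satisfies
`limsup (F n) ^ (1 / n) ≤ π / (4 - π) = 3.6597...`; the trivial bound is `4`.

Sketch. A folded state is a pair of noncrossing matchings of the `n + 1` layers (the creases at the
right end and the creases at the left end), with two missing partners altogether. Write it as a
word over pairs of opening and closing brackets. Because the layers form one path, no nonempty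
contiguous block of the word is balanced in both coordinates: such a block would be closed under
both matchings, but the last layer of the strip in the block has its successor as a partner.
Into the `n + 2` gaps of the word one can therefore insert arbitrary pairs of Dyck words of equal
length, and the result determines the original word and the inserted pairs. All words are
weighted by `x` per letter with `4 * x ≈ 1`, so words of a given length have total weight about `1`
(Kraft inequality), and every gap contributes the factor `∑ (catalan k)² x ^ (2 k)`. This sum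
tends to `16 / π - 4` as `x → 1 / 4` (Wallis product), which gives `4 / (16 / π - 4) = π / (4 - π)`.
-/

namespace Pool.Agent.Results.MP_8a1ce7_co.GrowthUpper

open Filter Real

/-- the pairs `{a, b}` and `{c, d}` interleave, and the first one starts lower -/
def Interleave (a b c d : ℕ) : Prop :=
  min a b < min c d ∧ min c d < max a b ∧ max a b < max c d

/-- `h i` is the height of the segment `s_i` (counted from `0`). Creases at the same end, that is
creases whose numbers have the same parity, do not interleave. -/
def IsFolding (n : ℕ) (h : Equiv.Perm (Fin (n + 1))) : Prop :=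
  ∀ i j : Fin n, i ≠ j → (i : ℕ) % 2 = (j : ℕ) % 2 →
    ¬ Interleave (h i.castSucc) (h i.succ) (h j.castSucc) (h j.succ)

/-- the number of folded states of a strip with `n` creases -/
noncomputable def F (n : ℕ) : ℕ := Nat.card {h : Equiv.Perm (Fin (n + 1)) // IsFolding n h}

theorem F_le (r : ℝ) (hr : π / (4 - π) < r) : ∃ C : ℝ, ∀ n : ℕ, (F n : ℝ) ≤ C * r ^ n :=
  Pool.Agent.Helper976.Stamp.growth r hr

/-- The exponential growth rate of the number of stamp foldings is at most `π / (4 - π) < 3.66`. -/
theorem result :
    limsup (fun n : ℕ => (F n : ℝ) ^ ((1 : ℝ) / n)) atTop ≤ π / (4 - π) ∧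
    π / (4 - π) < 3.66 ∧
    ∀ r : ℝ, π / (4 - π) < r → ∃ C : ℝ, ∀ n : ℕ, (F n : ℝ) ≤ C * r ^ n := by
  refine ⟨?_, ?_, F_le⟩
  · refine le_of_forall_gt_imp_ge_of_dense ?_
    intro r hr
    have hcob : IsCoboundedUnder (· ≤ ·) atTop (fun n : ℕ => (F n : ℝ) ^ ((1 : ℝ) / n)) := by
      refine IsBoundedUnder.isCoboundedUnder_le (isBoundedUnder_of ⟨0, ?_⟩)
      intro n
      exact Real.rpow_nonneg (Nat.cast_nonneg _) _
    refine limsup_le_of_le hcob ?_
    obtain ⟨s, hs1, hs2⟩ := exists_between hr
    have hpi4 := Real.pi_lt_d2
    have hs0 : 0 < s := lt_trans (div_pos Real.pi_pos (by linarith)) hs1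
    obtain ⟨C, hC⟩ := F_le s hs1
    have hC' : ∀ n : ℕ, (F n : ℝ) ≤ max C 1 * s ^ n := fun n =>
      le_trans (hC n) (mul_le_mul_of_nonneg_right (le_max_left _ _) (pow_pos hs0 n).le)
    have hC0 : (0 : ℝ) < max C 1 := lt_of_lt_of_le one_pos (le_max_right _ _)
    have hlim : Tendsto (fun n : ℕ => (max C 1) ^ ((1 : ℝ) / n) * s) atTop (nhds (1 * s)) := by
      refine Tendsto.mul_const s ?_
      have h1 : Tendsto (fun n : ℕ => (1 : ℝ) / n) atTop (nhds 0) :=
        tendsto_one_div_atTop_nhds_zero_nat
      have h2 : Tendsto (fun n : ℕ => (max C 1) ^ ((1 : ℝ) / n)) atTop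
          (nhds ((max C 1) ^ (0 : ℝ))) :=
        (Real.continuousAt_const_rpow (a := max C 1) (b := 0) hC0.ne').tendsto.comp h1
      rwa [Real.rpow_zero] at h2
    rw [one_mul] at hlim
    have hev := (tendsto_order.1 hlim).2 r hs2
    filter_upwards [hev, eventually_ge_atTop 1] with n hn hn1
    have hn0 : (n : ℝ) ≠ 0 := by positivity
    calc (F n : ℝ) ^ ((1 : ℝ) / n) ≤ (max C 1 * s ^ n) ^ ((1 : ℝ) / n) :=
          Real.rpow_le_rpow (Nat.cast_nonneg _) (hC' n) (by positivity)
      _ = (max C 1) ^ ((1 : ℝ) / n) * s := by
          rw [Real.mul_rpow hC0.le (pow_pos hs0 n).le, ← Real.rpow_natCast s n,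
            ← Real.rpow_mul hs0.le, mul_one_div_cancel hn0, Real.rpow_one]
      _ ≤ r := hn.le
  · have h1 := Real.pi_lt_d6
    have h2 := Real.pi_gt_d6
    rw [div_lt_iff₀ (by linarith)]
    norm_num at h1 h2 ⊢
    linarith

end Pool.Agent.Results.MP_8a1ce7_co.GrowthUpper
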